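import Pool.Agent.Run7.h818.HB.Two

/-!
# Disjoint perfect matchings in r-graphs without large linked pairs

A multigraph has the vertices `Fin n` and the edges `Fin m`, `ends e` is the pair of ends of `e`.

* `PerfectMatching ends M`: exactly one edge of `M` at every vertex.
* `Linked ends S T`: `S`, `T` are disjoint sets of vertices of odd size, both induce connected subgraphs
  with circuits of length at least five, and five pairwise disjoint edges join `S` and `T`.

Proof: `Pool/Agent/Run7/h818/HB`.
-/

set_option autoImplicit false

namespace Pool.Agent.Results.MP_6b611a_co.LongCircuitBonds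

open Run7.h818.HB Finset

/-- Let `G` be an `r`-graph: loopless, `r`-regular, at least `r` edges leaving every odd set.  If `G` has
no linked pair, or if `G` has no Petersen minor and `|S| + |T| ≤ 13` for all linked pairs `S`, `T`, then
`G` has `r` pairwise disjoint perfect matchings. -/
theorem result (n m r : ℕ) (ends : Fin m → Sym2 (Fin n)) (noloop : ∀ e, ¬ (ends e).IsDiag)
    (regular : ∀ v, #{e | v ∈ ends e} = r)
    (oddCuts : ∀ X : Finset (Fin n), Odd X.card →
      r ≤ #{e | ∃ u, u ∈ X ∧ ∃ w, w ∉ X ∧ ends e = s(u, w)})
    (h : (∀ S T, ¬ Linked ends S T) ∨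
      (¬ H76TY.PetMinor (SimpleGraph.fromEdgeSet (Set.range ends)) ∧
        ∀ S T, Linked ends S T → S.card + T.card ≤ 13)) :
    ∃ M : Fin r → Finset (Fin m), (∀ i, PerfectMatching ends (M i)) ∧
      ∀ i j, i ≠ j → Disjoint (M i) (M j) := by
  classical
  have hG : H76FC.MGraph r ends := by
    refine ⟨noloop, fun v => ?_, fun X hX => ?_⟩
    · rw [Set.ncard_eq_toFinset_card']
      simp only [Set.toFinset_ofPred]
      exact regular v
    · rw [Set.ncard_eq_toFinset_card']
      simp only [Set.toFinset_ofPred]
      exact oddCuts X hX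
  obtain ⟨M, h1, h2, -⟩ := family_of_linked ends hG h
  exact ⟨M, h1, h2⟩

end Pool.Agent.Results.MP_6b611a_co.LongCircuitBonds
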